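import Pool.Agent.Lib.CDER.Rev

/-! Reversible automata over two letters, and the reversal of a reversible automaton. -/

set_option autoImplicit false

namespace CDER

/-! ### Reversal -/

section reversal

variable {β σ : Type}

open Classical in
/-- the inverse automaton -/
noncomputable def inv (M : DFA β σ) (d f : σ) : DFA β σ where
  step t b := if h : t ≠ d ∧ ∃ s, M.step s b = t then h.2.choose else d
  start := f
  accept := {M.start}

open Classical in
theorem inv_step {M : DFA β σ} {d f s t : σ} {b : β}
    (hinj : ∀ b s t, M.step s b = M.step t b → M.step s b ≠ d → s = t) (h : M.step s b = t) (ht : t ≠ d) :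
    (inv M d f).step t b = s := by
  have h' : t ≠ d ∧ ∃ s, M.step s b = t := ⟨ht, s, h⟩
  change dite _ _ _ = s
  rw [dif_pos h']
  have e := h'.2.choose_spec
  exact hinj b _ _ (e.trans h.symm) (by rw [e]; exact ht)

open Classical in
theorem inv_step' {M : DFA β σ} {d f s t : σ} {b : β} (h : (inv M d f).step t b = s) (hs : s ≠ d) :
    t ≠ d ∧ M.step s b = t := by
  change dite _ _ _ = s at h
  split_ifs at h with h'
  · refine ⟨h'.1, ?_⟩
    have e := h'.2.choose_spec
    rw [h] at e
    exact e
  · exact absurd h.symm hs

theorem dead_evalFrom {M : DFA β σ} {d : σ} (hd : ∀ b, M.step d b = d) (y : List β) : M.evalFrom d y = d := by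
  induction y with
  | nil => rfl
  | cons b y ih => rw [DFA.evalFrom_cons, hd]; exact ih

theorem inv_evalFrom {M : DFA β σ} {d f : σ} (hd : ∀ b, M.step d b = d)
    (hinj : ∀ b s t, M.step s b = M.step t b → M.step s b ≠ d → s = t) (y : List β) :
    ∀ s t, s ≠ d → t ≠ d → (M.evalFrom s y = t ↔ (inv M d f).evalFrom t y.reverse = s) := by
  induction y with
  | nil => intro s t _ _; exact ⟨fun h => h.symm, fun h => h.symm⟩
  | cons b y ih =>
    intro s t hs ht
    rw [DFA.evalFrom_cons, List.reverse_cons, DFA.evalFrom_append_singleton]
    constructor
    · intro h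
      have hu : M.step s b ≠ d := by
        intro hu
        rw [hu, dead_evalFrom hd] at h
        exact ht h.symm
      rw [(ih _ t hu ht).1 h]
      exact inv_step hinj rfl hu
    · intro h
      obtain ⟨h1, h2⟩ := inv_step' h hs
      rw [h2]
      exact (ih _ t h1 ht).2 rfl

open Classical in
theorem reversal (M : DFA β σ) (hM : Rev M) :
    ∃ M' : DFA β σ, Rev M' ∧ ∀ y, y ∈ M'.accepts ↔ y.reverse ∈ M.accepts := by
  obtain ⟨d, f, h1, h2, h3, h4, h5⟩ := hM
  refine ⟨inv M d f, ⟨d, M.start, h2, h1, rfl, ?_, ?_⟩, ?_⟩
  · intro b
    change dite _ _ _ = d
    rw [dif_neg (fun h => h.1 rfl)]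
  · intro b s t h hs
    have e1 := (inv_step' (f := f) rfl hs).2
    have e2 := (inv_step' (f := f) h.symm hs).2
    rw [← e1, ← e2]
  · intro y
    have h := inv_evalFrom (f := f) h4 h5 y.reverse M.start f (Ne.symm h1) (Ne.symm h2)
    rw [List.reverse_reverse] at h
    rw [DFA.mem_accepts, DFA.mem_accepts, h3]
    exact h.symm

end reversal

/-! ### Two letters -/

/-- states of the automaton over two letters -/
inductive BSt (σ : Type) (K : ℕ) : Type
  | up (s : σ) (j : Fin K)
  | down (s : σ) (j : Fin K)
  | dead

variable {σ : Type} {K : ℕ}

open Classical in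
/-- the step: the letter `j` is coded by `j` times `false`, `true`, `j` times `false`, `true` -/
noncomputable def binstep (M : DFA (Fin K) σ) (D : σ → Prop) : BSt σ K → Bool → BSt σ K
  | .up s j, false => if h : j.val + 1 < K then .up s ⟨j.val + 1, h⟩ else .dead
  | .up s j, true => if D (M.step s j) then .dead else .down (M.step s j) j
  | .down t j, false => if 0 < j.val then .down t ⟨j.val - 1, by omega⟩ else .dead
  | .down t j, true => if j.val = 0 then .up t j else .dead
  | .dead, _ => .dead

/-- the automaton over two letters -/
noncomputable def bin [NeZero K] (M : DFA (Fin K) σ) (D : σ → Prop) : DFA Bool (BSt σ K) where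
  step := binstep M D
  start := .up M.start 0
  accept := {x | ∃ f ∈ M.accept, x = .up f 0}

theorem bin_step [NeZero K] (M : DFA (Fin K) σ) (D : σ → Prop) (s : BSt σ K) (b : Bool) :
    (bin M D).step s b = binstep M D s b := rfl

theorem bin_revW [NeZero K] {M : DFA (Fin K) σ} {d f : σ} (h3 : M.accept = {f})
    (h5 : ∀ b s t, M.step s b = M.step t b → M.step s b ≠ d → s = t) :
    RevW (bin M (fun s => s = d)) .dead (.up f 0) := by
  classical
  refine ⟨?_, ?_, ?_, ?_, ?_⟩
  · intro h; cases h
  · intro h; cases h
  · ext x
    change (∃ g ∈ M.accept, x = .up g 0) ↔ x = .up f 0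
    rw [h3]
    constructor
    · rintro ⟨g, hg, rfl⟩
      rw [Set.mem_singleton_iff.1 hg]
    · rintro rfl
      exact ⟨f, rfl, rfl⟩
  · intro b; cases b <;> rfl
  · intro b s t h hs
    rw [bin_step, bin_step] at h
    rw [bin_step] at hs
    cases b with
    | false =>
      cases s with
      | up s j =>
        by_cases h1 : j.val + 1 < K
        · simp only [binstep, dif_pos h1] at h
          cases t with
          | up t i =>
            by_cases h2 : i.val + 1 < K
            · simp only [dif_pos h2, BSt.up.injEq, Fin.mk.injEq, add_left_inj] at h
              rw [h.1, Fin.ext h.2]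
            · simp only [dif_neg h2] at h
              cases h
          | down t i =>
            dsimp only at h
            split_ifs at h
          | dead => cases h
        · simp only [binstep, dif_neg h1] at hs
          exact absurd rfl hs
      | down s j =>
        by_cases h1 : 0 < j.val
        · simp only [binstep, if_pos h1] at h
          cases t with
          | up t i =>
            dsimp only at h
            split_ifs at h
          | down t i =>
            by_cases h2 : 0 < i.val
            · simp only [if_pos h2, BSt.down.injEq, Fin.mk.injEq] at h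
              rw [h.1, Fin.ext (by omega : j.val = i.val)]
            · simp only [if_neg h2] at h
              cases h
          | dead => cases h
        · simp only [binstep, if_neg h1] at hs
          exact absurd rfl hs
      | dead => exact absurd rfl hs
    | true =>
      cases s with
      | up s j =>
        by_cases h1 : M.step s j = d
        · simp only [binstep, if_pos h1] at hs
          exact absurd rfl hs
        · simp only [binstep, if_neg h1] at h
          cases t with
          | up t i =>
            by_cases h2 : M.step t i = d
            · simp only [if_pos h2] at h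
              cases h
            · simp only [if_neg h2, BSt.down.injEq] at h
              obtain ⟨e1, rfl⟩ := h
              rw [h5 j s t e1 h1]
          | down t i =>
            dsimp only at h
            split_ifs at h
          | dead => cases h
      | down s j =>
        by_cases h1 : j.val = 0
        · simp only [binstep, if_pos h1] at h
          cases t with
          | up t i =>
            dsimp only at h
            split_ifs at h
          | down t i =>
            by_cases h2 : i.val = 0
            · simp only [if_pos h2, BSt.up.injEq] at h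
              rw [h.1, h.2]
            · simp only [if_neg h2] at h
              cases h
          | dead => cases h
        · simp only [binstep, if_neg h1] at hs
          exact absurd rfl hs
      | dead => exact absurd rfl hs

theorem bin_rev [NeZero K] {M : DFA (Fin K) σ} {d f : σ} (h3 : M.accept = {f})
    (h5 : ∀ b s t, M.step s b = M.step t b → M.step s b ≠ d → s = t) :
    Rev (bin M (fun s => s = d)) := ⟨.dead, .up f 0, bin_revW h3 h5⟩

/-- map of states -/
def BSt.map {σ' : Type} (g : σ → σ') : BSt σ K → BSt σ' K
  | .up s j => .up (g s) j
  | .down s j => .down (g s) j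
  | .dead => .dead

/-- the free automaton -/
def free (K : ℕ) : DFA (Fin K) (List (Fin K)) where
  step y b := y ++ [b]
  start := []
  accept := Set.univ

theorem bin_parse [NeZero K] (M : DFA (Fin K) σ) (D : σ → Prop) (z : List Bool) :
    (bin M D).eval z = .dead ∨
      (bin M D).eval z = ((bin (free K) (fun _ => False)).eval z).map M.eval := by
  classical
  induction z using List.reverseRecOn with
  | nil => exact Or.inr rfl
  | append_singleton z b ih =>
    rw [DFA.eval_append_singleton, DFA.eval_append_singleton]
    rcases ih with h | h
    · left
      rw [h]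
      cases b <;> rfl
    · rw [h]
      generalize (bin (free K) (fun _ => False)).eval z = u
      rw [bin_step, bin_step]
      cases b with
      | false =>
        cases u with
        | up s j =>
          by_cases h1 : j.val + 1 < K
          · right; simp only [BSt.map, binstep, dif_pos h1]
          · left; simp only [BSt.map, binstep, dif_neg h1]
        | down s j =>
          by_cases h1 : 0 < j.val
          · right; simp only [BSt.map, binstep, if_pos h1]
          · left; simp only [BSt.map, binstep, if_neg h1]
        | dead => left; rfl
      | true =>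
        cases u with
        | up s j =>
          by_cases h1 : D (M.step (M.eval s) j)
          · left; simp only [BSt.map, binstep, if_pos h1]
          · right
            simp only [BSt.map, binstep, if_neg h1, if_false]
            change _ = BSt.down (M.eval (s ++ [j])) j
            rw [DFA.eval_append_singleton]
        | down s j =>
          by_cases h1 : j.val = 0
          · right; simp only [BSt.map, binstep, if_pos h1]
          · left; simp only [BSt.map, binstep, if_neg h1]
        | dead => left; rfl

/-- code of a letter -/
def cd (j : Fin K) : List Bool :=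
  List.replicate j.val false ++ ([true] ++ (List.replicate j.val false ++ [true]))

theorem up_false [NeZero K] (M : DFA (Fin K) σ) (D : σ → Prop) (s : σ) (m : ℕ) (hm : m < K) :
    (bin M D).evalFrom (.up s 0) (List.replicate m false) = .up s ⟨m, hm⟩ := by
  induction m with
  | zero => rfl
  | succ m ih =>
    rw [List.replicate_succ', DFA.evalFrom_append_singleton, ih (by omega)]
    rw [bin_step]
    simp only [binstep, dif_pos hm]

theorem down_false [NeZero K] (M : DFA (Fin K) σ) (D : σ → Prop) (s : σ) (m : ℕ) : ∀ hm : m < K,
    (bin M D).evalFrom (.down s ⟨m, hm⟩) (List.replicate m false) = .down s 0 := by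
  induction m with
  | zero => intro hm; rfl
  | succ m ih =>
    intro hm
    rw [List.replicate_succ, DFA.evalFrom_cons]
    rw [bin_step]
    simp only [binstep]
    rw [if_pos (Nat.succ_pos m)]
    exact ih (by omega)

theorem bin_cd [NeZero K] (M : DFA (Fin K) σ) (D : σ → Prop) (s : σ) (j : Fin K) (h : ¬ D (M.step s j)) :
    (bin M D).evalFrom (.up s 0) (cd j) = .up (M.step s j) 0 := by
  classical
  unfold cd
  rw [DFA.evalFrom_of_append, up_false M D s j.val j.isLt, DFA.evalFrom_of_append,
    DFA.evalFrom_singleton]
  have e0 : (bin M D).step (.up s ⟨j.val, j.isLt⟩) true = .down (M.step s j) j := by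
    rw [bin_step]
    simp only [binstep, if_neg h]
  rw [e0]
  rw [DFA.evalFrom_of_append]
  have e := down_false M D (M.step s j) j.val j.isLt
  rw [e, DFA.evalFrom_singleton]
  rw [bin_step]
  simp only [binstep, Fin.val_zero, if_true]

theorem bin_code [NeZero K] {M : DFA (Fin K) σ} {D : σ → Prop} (hd : ∀ s b, D s → D (M.step s b))
    (y : List (Fin K)) (h : ¬ D (M.eval y)) : (bin M D).eval (y.flatMap cd) = .up (M.eval y) 0 := by
  induction y using List.reverseRecOn with
  | nil => rfl
  | append_singleton y b ih =>
    rw [DFA.eval_append_singleton] at h
    have h' : ¬ D (M.eval y) := fun h' => h (hd _ _ h')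
    rw [List.flatMap_append, DFA.eval_append_singleton]
    change (bin M D).evalFrom (bin M D).start _ = _
    rw [DFA.evalFrom_of_append]
    change (bin M D).evalFrom ((bin M D).eval (y.flatMap cd)) _ = _
    rw [ih h', List.flatMap_singleton]
    exact bin_cd M D _ b h

theorem bin_iff [NeZero K] {σ' : Type} {M : DFA (Fin K) σ} {N : DFA (Fin K) σ'} {d f : σ} {d' f' : σ'}
    (hM : d ≠ f ∧ M.accept = {f} ∧ ∀ b, M.step d b = d)
    (hN : d' ≠ f' ∧ N.accept = {f'} ∧ ∀ b, N.step d' b = d') :
    (∃ y, y ∈ M.accepts ∧ y ∈ N.accepts) ↔
      ∃ z, z ∈ (bin M (fun s => s = d)).accepts ∧ z ∈ (bin N (fun s => s = d')).accepts := by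
  constructor
  · rintro ⟨y, h1, h2⟩
    have e1 : M.eval y = f := by
      have h := (DFA.mem_accepts (M := M)).1 h1
      rw [hM.2.1] at h
      exact h
    have e2 : N.eval y = f' := by
      have h := (DFA.mem_accepts (M := N)).1 h2
      rw [hN.2.1] at h
      exact h
    refine ⟨y.flatMap cd, ?_, ?_⟩
    · rw [DFA.mem_accepts, bin_code (D := fun s => s = d) (fun s b hs => by rw [hs]; exact hM.2.2 b) y
        (by rw [e1]; exact Ne.symm hM.1)]
      exact ⟨M.eval y, h1, rfl⟩
    · rw [DFA.mem_accepts, bin_code (D := fun s => s = d') (fun s b hs => by rw [hs]; exact hN.2.2 b) y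
        (by rw [e2]; exact Ne.symm hN.1)]
      exact ⟨N.eval y, h2, rfl⟩
  · rintro ⟨z, ⟨g, hg, h1⟩, ⟨g', hg', h2⟩⟩
    have h1' : (bin M (fun s => s = d)).eval z = .up g 0 := h1
    have h2' : (bin N (fun s => s = d')).eval z = .up g' 0 := h2
    have p1 := bin_parse M (fun s => s = d) z
    have p2 := bin_parse N (fun s => s = d') z
    rw [h1'] at p1
    rw [h2'] at p2
    rcases p1 with p1 | p1
    · cases p1
    rcases p2 with p2 | p2
    · cases p2
    revert p1 p2
    generalize (bin (free K) (fun _ => False)).eval z = u
    intro p1 p2
    cases u with
    | up y j =>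
      simp only [BSt.map, BSt.up.injEq] at p1 p2
      refine ⟨y, ?_, ?_⟩
      · rw [DFA.mem_accepts, ← p1.1]; exact hg
      · rw [DFA.mem_accepts, ← p2.1]; exact hg'
    | down y j => cases p1
    | dead => cases p1

end CDER
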