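import Mathlib

/-! Reversible deterministic automata (MP_cde0c0_lc): the definition. -/

set_option autoImplicit false

namespace CDER

/-- `M` is reversible: there is an absorbing state `d`, not the initial and not the accepting one, such that every
letter acts injectively on the states which it does not send to `d`, and there is exactly one accepting state. -/
def Rev {β σ : Type} (M : DFA β σ) : Prop :=
  ∃ d f : σ, d ≠ M.start ∧ d ≠ f ∧ M.accept = {f} ∧ (∀ b, M.step d b = d) ∧
    ∀ b s t, M.step s b = M.step t b → M.step s b ≠ d → s = t

/-- the same with given `d` and `f` -/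
def RevW {β σ : Type} (M : DFA β σ) (d f : σ) : Prop :=
  d ≠ M.start ∧ d ≠ f ∧ M.accept = {f} ∧ (∀ b, M.step d b = d) ∧
    ∀ b s t, M.step s b = M.step t b → M.step s b ≠ d → s = t

end CDER
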